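import Pool.Agent.W325.KZ.Defs
/-! Zeros of a polynomial and of the reversed polynomial. -/
set_option autoImplicit false
open Finset

namespace Pool.Agent.W704.KZ
open Pool.Agent.W325.KZ

theorem rev_eq (a : ℕ → ℝ) (n : ℕ) (t : ℝ) (ht : t ≠ 0) :
    pol (rv a n) n t = t ^ (n - 1) * pol a n t⁻¹ := by
  unfold pol rv
  rw [← Finset.sum_range_reflect, Finset.mul_sum]
  refine Finset.sum_congr rfl (fun k hk => ?_)
  have hk' : k < n := Finset.mem_range.1 hk
  have h1 : n - 1 - (n - 1 - k) = k := by omega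
  rw [h1]
  have h2 : t ^ (n - 1) = t ^ (n - 1 - k) * t ^ k := by
    rw [← pow_add]
    congr 1
    omega
  rw [h2, inv_pow]
  have h3 : t ^ k ≠ 0 := pow_ne_zero _ ht
  field_simp

theorem zero_inv (a : ℕ → ℝ) (n : ℕ) {x : ℝ} (hx : x ≠ 0) (h : pol a n x = 0) :
    pol (rv a n) n x⁻¹ = 0 := by
  rw [rev_eq a n x⁻¹ (inv_ne_zero hx), inv_inv, h, mul_zero]

theorem zero_inv' (a : ℕ → ℝ) (n : ℕ) {t : ℝ} (ht : t ≠ 0) (h : pol (rv a n) n t = 0) :
    pol a n t⁻¹ = 0 := by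
  rw [rev_eq a n t ht] at h
  rcases mul_eq_zero.1 h with h | h
  · exact absurd h (pow_ne_zero _ ht)
  · exact h

theorem spla : S_SPLA := by
  intro a n K T r hn hr0 hr1 hK hT
  classical
  obtain ⟨S, hS, hz⟩ := hK
  set F1 := S.filter (fun x => |x| ≤ 1)
  set F2 := S.filter (fun x => 1 < x ∧ r ≤ x⁻¹)
  set F3 := S.filter (fun x => x < -1 ∧ x⁻¹ ≤ -r)
  set F4 := S.filter (fun x => 1 < |x| ∧ |x⁻¹| < r)
  have hcov : S ⊆ F1 ∪ F2 ∪ F3 ∪ F4 := by
    intro x hx
    simp only [F1, F2, F3, F4, Finset.mem_union, Finset.mem_filter]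
    by_cases h1 : |x| ≤ 1
    · exact Or.inl (Or.inl (Or.inl ⟨hx, h1⟩))
    · push Not at h1
      by_cases h2 : |x⁻¹| < r
      · exact Or.inr ⟨hx, h1, h2⟩
      · push Not at h2
        rcases lt_abs.1 h1 with h3 | h3
        · refine Or.inl (Or.inl (Or.inr ⟨hx, h3, ?_⟩))
          rwa [abs_of_pos (inv_pos.2 (by linarith))] at h2
        · refine Or.inl (Or.inr ⟨hx, by linarith, ?_⟩)
          have h4 : x⁻¹ < 0 := inv_lt_zero.2 (by linarith)
          rw [abs_of_neg h4] at h2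
          linarith
  have hcard : S.card ≤ F1.card + F2.card + F3.card + F4.card := by
    refine (Finset.card_le_card hcov).trans ?_
    refine (Finset.card_union_le _ _).trans ?_
    gcongr
    refine (Finset.card_union_le _ _).trans ?_
    gcongr
    exact Finset.card_union_le _ _
  have hinj : ∀ F : Finset ℝ, (F.image (fun x : ℝ => x⁻¹)).card = F.card := fun F =>
    Finset.card_image_of_injective _ inv_injective
  have h4 : F4.card < T := by
    by_contra hcon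
    push Not at hcon
    refine hT ⟨F4.image (fun x => x⁻¹), by rw [hinj]; exact hcon, ?_⟩
    intro t ht
    obtain ⟨x, hx, rfl⟩ := Finset.mem_image.1 ht
    obtain ⟨hxS, h1, h2⟩ := Finset.mem_filter.1 hx
    have hx0 : x ≠ 0 := by
      rintro rfl
      simp at h1
      linarith
    have h3 := abs_lt.1 h2
    exact ⟨⟨h3.1.le, h3.2.le⟩, zero_inv a n hx0 (hz x hxS).2⟩
  refine ⟨F1.card, F2.card, F3.card, by omega, ⟨F1, le_rfl, ?_⟩,
    ⟨F2.image (fun x => x⁻¹), by rw [hinj], ?_⟩, ⟨F3.image (fun x => x⁻¹), by rw [hinj], ?_⟩⟩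
  · intro x hx
    obtain ⟨hxS, h1⟩ := Finset.mem_filter.1 hx
    exact ⟨abs_le.1 h1, (hz x hxS).2⟩
  · intro t ht
    obtain ⟨x, hx, rfl⟩ := Finset.mem_image.1 ht
    obtain ⟨hxS, h1, h2⟩ := Finset.mem_filter.1 hx
    have hx0 : x ≠ 0 := by
      rintro rfl
      linarith
    exact ⟨⟨h2, inv_le_one_of_one_le₀ h1.le⟩, zero_inv a n hx0 (hz x hxS).2⟩
  · intro t ht
    obtain ⟨x, hx, rfl⟩ := Finset.mem_image.1 ht
    obtain ⟨hxS, h1, h2⟩ := Finset.mem_filter.1 hx
    have hx0 : x ≠ 0 := by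
      rintro rfl
      linarith
    refine ⟨⟨?_, h2⟩, zero_inv a n hx0 (hz x hxS).2⟩
    have h3 : (-x)⁻¹ ≤ 1 := inv_le_one_of_one_le₀ (by linarith)
    rw [inv_neg] at h3
    linarith

theorem splb : S_SPLB := by
  intro a n k₁ k₂ k₃ k₄ r c hn hr0 hr1 hc0 hcr h1 h2 h3 h4
  classical
  obtain ⟨S1, hk1, hz1⟩ := h1
  obtain ⟨S2, hk2, hz2⟩ := h2
  obtain ⟨S3, hk3, hz3⟩ := h3
  obtain ⟨c', hc', S4, hk4, hz4⟩ := h4
  have hinj : ∀ F : Finset ℝ, (F.image (fun x : ℝ => x⁻¹)).card = F.card := fun F =>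
    Finset.card_image_of_injective _ inv_injective
  have hrinv : 1 < r⁻¹ := (one_lt_inv₀ hr0).2 hr1
  set I2 := (S2.erase 1).image (fun x : ℝ => x⁻¹) with hI2
  set I3 := (S3.erase (-1)).image (fun x : ℝ => x⁻¹) with hI3
  set I4 := S4.image (fun x : ℝ => x⁻¹) with hI4
  have m1 : ∀ x ∈ S1, -1 ≤ x ∧ x ≤ 1 ∧ pol a n x = 0 := fun x hx =>
    ⟨(hz1 x hx).1.1, (hz1 x hx).1.2, (hz1 x hx).2⟩
  have m2 : ∀ x ∈ I2, 1 < x ∧ x ≤ r⁻¹ ∧ pol a n x = 0 := by
    intro x hx
    obtain ⟨t, ht, rfl⟩ := Finset.mem_image.1 hx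
    obtain ⟨hne, htS⟩ := Finset.mem_erase.1 ht
    obtain ⟨⟨h5, h6⟩, h7⟩ := hz2 t htS
    have ht0 : 0 < t := by linarith
    refine ⟨(one_lt_inv₀ ht0).2 (lt_of_le_of_ne h6 hne), inv_anti₀ hr0 h5,
      zero_inv' a n ht0.ne' h7⟩
  have m3 : ∀ x ∈ I3, x < -1 ∧ pol a n x = 0 := by
    intro x hx
    obtain ⟨t, ht, rfl⟩ := Finset.mem_image.1 hx
    obtain ⟨hne, htS⟩ := Finset.mem_erase.1 ht
    obtain ⟨⟨h5, h6⟩, h7⟩ := hz3 t htS
    have ht0 : 0 < -t := by linarith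
    have h8 : 1 < (-t)⁻¹ := (one_lt_inv₀ ht0).2 (by
      have : -1 < t := lt_of_le_of_ne h5 (Ne.symm hne)
      linarith)
    rw [inv_neg] at h8
    exact ⟨by linarith, zero_inv' a n (by linarith) h7⟩
  have m4 : ∀ x ∈ I4, r⁻¹ < x ∧ pol a n x = 0 := by
    intro x hx
    obtain ⟨t, ht, rfl⟩ := Finset.mem_image.1 hx
    obtain ⟨⟨h5, h6⟩, h7⟩ := hz4 t ht
    have ht0 : 0 < t := by linarith
    refine ⟨inv_strictAnti₀ ht0 (by linarith), zero_inv' a n ht0.ne' h7⟩
  have d12 : Disjoint S1 I2 := by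
    rw [Finset.disjoint_left]
    intro x hx hx'
    have := (m1 x hx).2.1
    have := (m2 x hx').1
    linarith
  have d3 : Disjoint (S1 ∪ I2) I3 := by
    rw [Finset.disjoint_left]
    intro x hx hx'
    have h8 := (m3 x hx').1
    rcases Finset.mem_union.1 hx with h | h
    · have := (m1 x h).1
      linarith
    · have := (m2 x h).1
      linarith
  have d4 : Disjoint (S1 ∪ I2 ∪ I3) I4 := by
    rw [Finset.disjoint_left]
    intro x hx hx'
    have h8 := (m4 x hx').1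
    rcases Finset.mem_union.1 hx with h | h
    · rcases Finset.mem_union.1 h with h | h
      · have := (m1 x h).2.1
        linarith
      · have := (m2 x h).2.1
        linarith
    · have := (m3 x h).1
      linarith
  refine ⟨S1 ∪ I2 ∪ I3 ∪ I4, ?_, ?_⟩
  · rw [Finset.card_union_of_disjoint d4, Finset.card_union_of_disjoint d3,
      Finset.card_union_of_disjoint d12, hI2, hI3, hI4, hinj, hinj, hinj]
    have e2 := Finset.pred_card_le_card_erase (s := S2) (a := (1 : ℝ))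
    have e3 := Finset.pred_card_le_card_erase (s := S3) (a := (-1 : ℝ))
    omega
  · intro x hx
    refine ⟨Set.mem_univ _, ?_⟩
    rcases Finset.mem_union.1 hx with h | h
    · rcases Finset.mem_union.1 h with h | h
      · rcases Finset.mem_union.1 h with h | h
        · exact (m1 x h).2.2
        · exact (m2 x h).2.2
      · exact (m3 x h).2
    · exact (m4 x h).2

end Pool.Agent.W704.KZ
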